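import Pool.Agent.Helper55.PC.Events
import Pool.Agent.Helper95.PC.Kill

/-!
# Block C6c of the pre-cutoff counterexample: `tv_upper`
-/

namespace Pool.Agent.Helper55.PC

open Finset Filter
open scoped Topology ENNReal Classical

lemma tvu_rs_eq_iff {i j : Fin 7} (h : i ≠ j) (η : ℕ → Bool) (w : ℕ → Slot) (t : ℕ) (b : Bool) :
    rs i η w t = (j, b) ↔ w t = (j, b) := by
  by_cases h1 : (w t).1 = i
  · have e1 : rs i η w t ≠ (j, b) := fun h2 => by
      have := congrArg Prod.fst h2
      rw [rs_fst] at this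
      exact h (h1.symm.trans this)
    have e2 : w t ≠ (j, b) := fun h2 => by
      have := congrArg Prod.fst h2
      exact h (h1.symm.trans this)
    simp [e1, e2]
  · rw [rs_of_ne η h1]

lemma tvu_lamp_rs3 {ℓ : ℕ} (p0 : ZMod ℓ → ZMod 2) (c0 : ZMod ℓ) (η : ℕ → Bool) (w : ℕ → Slot)
    (t : ℕ) : lamp p0 c0 (rs 3 η w) t = lamp p0 c0 w t := by
  induction t with
  | zero => rfl
  | succ t ih =>
    funext y
    simp only [lamp, ih, cur_rs (show (3 : Fin 7) ≠ 0 by decide) (show (3 : Fin 7) ≠ 1 by decide),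
      tvu_rs_eq_iff (show (3 : Fin 7) ≠ 2 by decide)]

lemma tvu_run_rs {R : Type} [Group R] (s q : R) {i : Fin 7} (h4 : i ≠ 4) (h5 : i ≠ 5) (h6 : i ≠ 6)
    (ρ : R) (η : ℕ → Bool) (w : ℕ → Slot) (t : ℕ) :
    run (rstep s q) ρ (rs i η w) t = run (rstep s q) ρ w t := by
  induction t with
  | zero => rfl
  | succ t ih =>
    simp only [run]
    rw [ih]
    unfold rstep
    simp only [tvu_rs_eq_iff h4, tvu_rs_eq_iff h5, tvu_rs_eq_iff h6]

lemma tvu_run_mul {R : Type} [Group R] (s q : R) (ρ : R) (w : ℕ → Slot) (t : ℕ) :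
    run (rstep s q) ρ w t = ρ * run (rstep s q) 1 w t := by
  induction t with
  | zero => simp [run]
  | succ t ih =>
    simp only [run]
    rw [ih]
    unfold rstep
    split_ifs <;> simp [mul_assoc]

lemma tvu_lamp_eq {ℓ : ℕ} (p0 : ZMod ℓ → ZMod 2) (c0 : ZMod ℓ) (w : ℕ → Slot) (t : ℕ) :
    lamp p0 c0 w t = p0 + ∑ i ∈ range t,
      (if w i = (2, true) then Pi.single (c0 + (cur w i : ZMod ℓ)) 1 else 0) := by
  induction t with
  | zero => simp [lamp]
  | succ t ih =>
    rw [sum_range_succ, ← add_assoc, ← ih]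
    funext y
    simp only [lamp, Pi.add_apply]
    congr 1
    by_cases h : w t = (2, true)
    · simp only [h, true_and, if_true, Pi.single_apply, eq_comm]
    · simp [h]

/-- the masses of the good part do not depend on the small lamps -/
lemma tvu_small {k L : ℕ} [NeZero k] [NeZero L] {R : Type} [Group R] (s q : R) (t : ℕ)
    (p0 : Site k L → ZMod 2) (c0 : Site k L) (ρ0 : R) (good : (ℕ → Slot) → Prop)
    (hg2 : ∀ η w, good (rs 2 η w) ↔ good w)
    (hfresh : ∀ w, good w → ∀ φ : (Site k L → ZMod 2) →+ ZMod 2, φ ≠ 0 → Fresh c0 φ t w)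
    (c : Site k L) (ρ : R) (p p' : Site k L → ZMod 2) :
    Ex t (fun w => (if (lamp p0 c0 w t, c0 + (cur w t : Site k L),
      run (rstep s q) ρ0 w t) = (p, c, ρ) then 1 else 0) * (if good w then 1 else 0)) =
    Ex t (fun w => (if (lamp p0 c0 w t, c0 + (cur w t : Site k L),
      run (rstep s q) ρ0 w t) = (p', c, ρ) then 1 else 0) * (if good w then 1 else 0)) := by
  have h2 : ∀ v : Site k L → ZMod 2, v + v = 0 := fun v => by
    funext z
    exact (by decide : ∀ a : ZMod 2, a + a = 0) _
  refine const_of_chars (V := Site k L → ZMod 2) h2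
    (fun p => Ex t (fun w => (if (lamp p0 c0 w t, c0 + (cur w t : Site k L),
      run (rstep s q) ρ0 w t) = (p, c, ρ) then 1 else 0) * (if good w then 1 else 0))) ?_ p p'
  intro φ hφ
  have e1 : ∑ v, sg (φ v) * Ex t (fun w => (if (lamp p0 c0 w t,
      c0 + (cur w t : Site k L), run (rstep s q) ρ0 w t) = (v, c, ρ) then 1 else 0) *
        (if good w then 1 else 0)) =
      Ex t (fun w => sg (φ (lamp p0 c0 w t)) *
        ((if (c0 + (cur w t : Site k L), run (rstep s q) ρ0 w t) = (c, ρ) then 1 else 0) *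
          (if good w then 1 else 0))) := by
    simp only [← Ex_mul_left]
    rw [← Ex_sum]
    congr 1
    funext w
    rw [Finset.sum_eq_single (lamp p0 c0 w t)]
    · simp
    · intro v _ hv
      simp [Ne.symm hv]
    · simp
  rw [e1]
  have e2 : ∀ w : ℕ → Slot, sg (φ (lamp p0 c0 w t)) =
      sg (φ p0) * sg (∑ i ∈ range t,
        if w i = (2, true) then φ (Pi.single (c0 + (cur w i : Site k L)) 1) else 0) := by
    intro w
    rw [tvu_lamp_eq, map_add, sg_add, map_sum]
    congr 2
    refine sum_congr rfl fun i _ => ?_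
    split_ifs <;> simp
  simp only [e2, mul_assoc]
  rw [Ex_mul_left]
  have hk := kill t 2 (by decide) (fun i w => φ (Pi.single (c0 + (cur w i : Site k L)) 1))
    (fun i η w => by
      simp only [cur_rs (show (2 : Fin 7) ≠ 0 by decide) (show (2 : Fin 7) ≠ 1 by decide)])
    (fun w => (if (c0 + (cur w t : Site k L),
      run (rstep s q) ρ0 w t) = (c, ρ) then (1 : ℝ) else 0) * (if good w then 1 else 0))
    (fun η w => by
      simp only [cur_rs (show (2 : Fin 7) ≠ 0 by decide) (show (2 : Fin 7) ≠ 1 by decide),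
        tvu_run_rs s q (show (2 : Fin 7) ≠ 4 by decide) (show (2 : Fin 7) ≠ 5 by decide)
          (show (2 : Fin 7) ≠ 6 by decide), hg2])
  rw [hk]
  have e3 : ∀ w : ℕ → Slot, (if ∃ s' < t, (w s').1 = 2 ∧
      φ (Pi.single (c0 + (cur w s' : Site k L)) 1) ≠ 0 then (0 : ℝ) else 1) *
      ((if (c0 + (cur w t : Site k L),
      run (rstep s q) ρ0 w t) = (c, ρ) then (1 : ℝ) else 0) * (if good w then 1 else 0)) = 0 := by
    intro w
    by_cases hgw : good w
    · have := hfresh w hgw φ hφ
      unfold Fresh at this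
      rw [if_pos this, zero_mul]
    · simp [hgw]
  simp only [e3, Ex_const, mul_zero]

section
variable {k r L : ℕ} [NeZero k] [NeZero L] {R U : Type} [Group R] [Fintype R]
    [AddCommGroup U] [Fintype U] [DistribMulAction R U] {s q : R} {u : Idx k r → U} {W : Pat}

/-- sum over a finite type against an indicator -/
lemma tvu_sum_ind {α : Type*} [Fintype α] (f : α → ℝ) (a : α) :
    ∑ y : α, f y * (if a = y then 1 else 0) = f a := by
  simp

/-- the masses of the good part do not depend on the big lamps -/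
lemma tvu_big (hG : GW s q u W) (t : ℕ) (x : St k r L R U) (good : (ℕ → Slot) → Prop)
    (hg3 : ∀ η w, good (rs 3 η w) ↔ good w)
    (hkill : ∀ w, good w → ∀ ψ : (Site k L × Lbl k r → U) →+ ZMod 2, ψ ≠ 0 →
      Killed s q u x.2.1 x.2.2.1 x.2.2.2 ψ t w)
    (p : Site k L → ZMod 2) (c : Site k L) (ρ : R) (h h' : Site k L × Lbl k r → U) :
    Ex t (fun w => (if run (step s q u) x w t = (h, p, c, ρ) then 1 else 0) *
      (if good w then 1 else 0)) =
    Ex t (fun w => (if run (step s q u) x w t = (h', p, c, ρ) then 1 else 0) *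
      (if good w then 1 else 0)) := by
  have h2 : ∀ v : Site k L × Lbl k r → U, v + v = 0 := fun v => by
    funext z; exact hG.two _
  refine const_of_chars (V := Site k L × Lbl k r → U) h2
    (fun h => Ex t (fun w => (if run (step s q u) x w t = (h, p, c, ρ) then 1 else 0) *
      (if good w then 1 else 0))) ?_ h h'
  intro χ hχ
  -- exchange sum and expectation
  have e1 : ∑ v, sg (χ v) * Ex t (fun w => (if run (step s q u) x w t = (v, p, c, ρ) then 1 else 0) *
      (if good w then 1 else 0)) =
      Ex t (fun w => sg (χ (run (step s q u) x w t).1) *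
        ((if (run (step s q u) x w t).2 = (p, c, ρ) then 1 else 0) * (if good w then 1 else 0))) := by
    simp only [← Ex_mul_left]
    rw [← Ex_sum]
    congr 1
    funext w
    obtain ⟨a, b, hab⟩ : ∃ a b, run (step s q u) x w t = (a, b) := ⟨_, _, rfl⟩
    rw [hab]
    simp only [Prod.mk.injEq]
    rw [Finset.sum_eq_single a]
    · simp
    · intro v _ hv
      simp [Ne.symm hv]
    · simp
  rw [e1]
  simp only [run_step]
  have e2 : ∀ w : ℕ → Slot, sg (χ (x.1 + ∑ i ∈ range t,
      (if w i = (3, true) then inc s q u x.2.1 x.2.2.1 x.2.2.2 w i else 0))) =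
      sg (χ x.1) * sg (∑ i ∈ range t,
        if w i = (3, true) then χ (inc s q u x.2.1 x.2.2.1 x.2.2.2 w i) else 0) := by
    intro w
    rw [map_add, sg_add, map_sum]
    congr 2
    refine sum_congr rfl fun i _ => ?_
    split_ifs <;> simp
  simp only [e2, mul_assoc]
  rw [Ex_mul_left]
  have hinc : ∀ i η w, inc s q u x.2.1 x.2.2.1 x.2.2.2 (rs 3 η w) i =
      inc s q u x.2.1 x.2.2.1 x.2.2.2 w i := by
    intro i η w
    unfold inc
    rw [tvu_lamp_rs3, cur_rs (by decide) (by decide),
      tvu_run_rs s q (by decide) (by decide) (by decide)]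
  have hk := kill t 3 (by decide) (fun i w => χ (inc s q u x.2.1 x.2.2.1 x.2.2.2 w i))
    (fun i η w => by simp only [hinc])
    (fun w => (if (lamp x.2.1 x.2.2.1 w t, x.2.2.1 + (cur w t : Site k L),
      run (rstep s q) x.2.2.2 w t) = (p, c, ρ) then (1 : ℝ) else 0) * (if good w then 1 else 0))
    (fun η w => by
      simp only [tvu_lamp_rs3, cur_rs (show (3 : Fin 7) ≠ 0 by decide) (show (3 : Fin 7) ≠ 1 by decide),
        tvu_run_rs s q (show (3 : Fin 7) ≠ 4 by decide) (show (3 : Fin 7) ≠ 5 by decide)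
          (show (3 : Fin 7) ≠ 6 by decide), hg3])
  rw [hk]
  have e3 : ∀ w : ℕ → Slot, (if ∃ s' < t, (w s').1 = 3 ∧ χ (inc s q u x.2.1 x.2.2.1 x.2.2.2 w s') ≠ 0
      then (0 : ℝ) else 1) *
      ((if (lamp x.2.1 x.2.2.1 w t, x.2.2.1 + (cur w t : Site k L),
      run (rstep s q) x.2.2.2 w t) = (p, c, ρ) then (1 : ℝ) else 0) * (if good w then 1 else 0)) = 0 := by
    intro w
    by_cases hgw : good w
    · have := hkill w hgw χ hχ
      unfold Killed at this
      rw [if_pos this, zero_mul]
    · simp [hgw]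
  simp only [e3, Ex_const, mul_zero]

/-- the masses of the good part depend only on the cursor and the `R`-part -/
lemma tvu_const (hG : GW s q u W) (t : ℕ) (x : St k r L R U) (good : (ℕ → Slot) → Prop)
    (hg2 : ∀ η w, good (rs 2 η w) ↔ good w) (hg3 : ∀ η w, good (rs 3 η w) ↔ good w)
    (hkill : ∀ w, good w → ∀ ψ : (Site k L × Lbl k r → U) →+ ZMod 2, ψ ≠ 0 →
      Killed s q u x.2.1 x.2.2.1 x.2.2.2 ψ t w)
    (hfresh : ∀ w, good w → ∀ φ : (Site k L → ZMod 2) →+ ZMod 2, φ ≠ 0 → Fresh x.2.2.1 φ t w)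
    (h h' : Site k L × Lbl k r → U) (p p' : Site k L → ZMod 2) (c : Site k L) (ρ : R) :
    Ex t (fun w => (if run (step s q u) x w t = (h, p, c, ρ) then 1 else 0) *
      (if good w then 1 else 0)) =
    Ex t (fun w => (if run (step s q u) x w t = (h', p', c, ρ) then 1 else 0) *
      (if good w then 1 else 0)) := by
  have key : ∀ (h : Site k L × Lbl k r → U) (p : Site k L → ZMod 2),
      (Fintype.card (Site k L × Lbl k r → U) : ℝ) *
        Ex t (fun w => (if run (step s q u) x w t = (h, p, c, ρ) then 1 else 0) *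
          (if good w then 1 else 0)) =
      Ex t (fun w => (if (lamp x.2.1 x.2.2.1 w t, x.2.2.1 + (cur w t : Site k L),
        run (rstep s q) x.2.2.2 w t) = (p, c, ρ) then 1 else 0) * (if good w then 1 else 0)) := by
    intro h p
    have e0 : ∑ v : Site k L × Lbl k r → U,
        Ex t (fun w => (if run (step s q u) x w t = (v, p, c, ρ) then 1 else 0) *
          (if good w then 1 else 0)) =
        (Fintype.card (Site k L × Lbl k r → U) : ℝ) *
        Ex t (fun w => (if run (step s q u) x w t = (h, p, c, ρ) then 1 else 0) *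
          (if good w then 1 else 0)) := by
      rw [Finset.sum_congr rfl (fun v _ => tvu_big hG t x good hg3 hkill p c ρ v h)]
      rw [Finset.sum_const, Finset.card_univ, nsmul_eq_mul]
    rw [← e0, ← Ex_sum]
    congr 1
    funext w
    rw [run_step]
    rw [Finset.sum_eq_single (x.1 + ∑ i ∈ range t,
      (if w i = (3, true) then inc s q u x.2.1 x.2.2.1 x.2.2.2 w i else 0))]
    · simp
    · intro v _ hv
      simp [Ne.symm hv]
    · simp
  have hc : (Fintype.card (Site k L × Lbl k r → U) : ℝ) ≠ 0 := by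
    have : 0 < Fintype.card (Site k L × Lbl k r → U) := Fintype.card_pos
    exact_mod_cast this.ne'
  apply mul_left_cancel₀ hc
  rw [key, key]
  exact tvu_small s q t x.2.1 x.2.2.1 x.2.2.2 good hg2 hfresh c ρ p p'

/-- replacing a function by its average over the lamps on the good event -/
lemma tvu_avg (hG : GW s q u W) (t : ℕ) (x : St k r L R U) (good : (ℕ → Slot) → Prop)
    (hg2 : ∀ η w, good (rs 2 η w) ↔ good w) (hg3 : ∀ η w, good (rs 3 η w) ↔ good w)
    (hkill : ∀ w, good w → ∀ ψ : (Site k L × Lbl k r → U) →+ ZMod 2, ψ ≠ 0 →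
      Killed s q u x.2.1 x.2.2.1 x.2.2.2 ψ t w)
    (hfresh : ∀ w, good w → ∀ φ : (Site k L → ZMod 2) →+ ZMod 2, φ ≠ 0 → Fresh x.2.2.1 φ t w)
    (F : St k r L R U → ℝ) (Fb : Site k L → R → ℝ)
    (hFb : ∀ c ρ, ∑ h : Site k L × Lbl k r → U, ∑ p : Site k L → ZMod 2, F (h, p, c, ρ) =
      (Fintype.card (Site k L × Lbl k r → U) : ℝ) * (Fintype.card (Site k L → ZMod 2) : ℝ) *
        Fb c ρ) :
    Ex t (fun w => F (run (step s q u) x w t) * (if good w then 1 else 0)) =
    Ex t (fun w => Fb (x.2.2.1 + (cur w t : Site k L)) (run (rstep s q) x.2.2.2 w t) *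
      (if good w then 1 else 0)) := by
  -- both sides as sums over the states
  have e0 : ∀ G : St k r L R U → ℝ,
      Ex t (fun w => G (run (step s q u) x w t) * (if good w then 1 else 0)) =
      ∑ y : St k r L R U, G y * Ex t (fun w => (if run (step s q u) x w t = y then 1 else 0) *
        (if good w then 1 else 0)) := by
    intro G
    simp only [← Ex_mul_left]
    rw [← Ex_sum]
    congr 1
    funext w
    rw [Finset.sum_eq_single (run (step s q u) x w t)]
    · simp
    · intro v _ hv
      simp [Ne.symm hv]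
    · simp
  have e1 : Ex t (fun w => Fb (x.2.2.1 + (cur w t : Site k L)) (run (rstep s q) x.2.2.2 w t) *
      (if good w then 1 else 0)) =
      Ex t (fun w => (fun y : St k r L R U => Fb y.2.2.1 y.2.2.2) (run (step s q u) x w t) *
        (if good w then 1 else 0)) := by
    congr 1
    funext w
    rw [run_step]
  rw [e1, e0 F, e0 (fun y => Fb y.2.2.1 y.2.2.2)]
  have e2 : ∀ G : St k r L R U → ℝ,
      ∑ y : St k r L R U, G y * Ex t (fun w => (if run (step s q u) x w t = y then 1 else 0) *
        (if good w then 1 else 0)) =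
      ∑ c : Site k L, ∑ ρ : R, (∑ h : Site k L × Lbl k r → U, ∑ p : Site k L → ZMod 2,
        G (h, p, c, ρ)) * Ex t (fun w => (if run (step s q u) x w t = (0, 0, c, ρ) then 1 else 0) *
        (if good w then 1 else 0)) := by
    intro G
    calc ∑ y : St k r L R U, G y * Ex t (fun w => (if run (step s q u) x w t = y then 1 else 0) *
        (if good w then 1 else 0))
        = ∑ h : Site k L × Lbl k r → U, ∑ p : Site k L → ZMod 2, ∑ c : Site k L, ∑ ρ : R,
          G (h, p, c, ρ) * Ex t (fun w => (if run (step s q u) x w t = (h, p, c, ρ) then 1 else 0) *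
            (if good w then 1 else 0)) := by
          rw [Fintype.sum_prod_type]
          refine Finset.sum_congr rfl fun h _ => ?_
          rw [Fintype.sum_prod_type]
          refine Finset.sum_congr rfl fun p _ => ?_
          rw [Fintype.sum_prod_type]
      _ = ∑ h : Site k L × Lbl k r → U, ∑ p : Site k L → ZMod 2, ∑ c : Site k L, ∑ ρ : R,
          G (h, p, c, ρ) * Ex t (fun w => (if run (step s q u) x w t = (0, 0, c, ρ) then 1 else 0) *
            (if good w then 1 else 0)) := by
          refine Finset.sum_congr rfl fun h _ => Finset.sum_congr rfl fun p _ =>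
            Finset.sum_congr rfl fun c _ => Finset.sum_congr rfl fun ρ _ => ?_
          rw [tvu_const hG t x good hg2 hg3 hkill hfresh h 0 p 0 c ρ]
      _ = ∑ h : Site k L × Lbl k r → U, ∑ c : Site k L, ∑ ρ : R, ∑ p : Site k L → ZMod 2,
          G (h, p, c, ρ) * Ex t (fun w => (if run (step s q u) x w t = (0, 0, c, ρ) then 1 else 0) *
            (if good w then 1 else 0)) := by
          refine Finset.sum_congr rfl fun h _ => ?_
          rw [Finset.sum_comm]
          refine Finset.sum_congr rfl fun c _ => ?_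
          rw [Finset.sum_comm]
      _ = ∑ c : Site k L, ∑ ρ : R, ∑ h : Site k L × Lbl k r → U, ∑ p : Site k L → ZMod 2,
          G (h, p, c, ρ) * Ex t (fun w => (if run (step s q u) x w t = (0, 0, c, ρ) then 1 else 0) *
            (if good w then 1 else 0)) := by
          rw [Finset.sum_comm]
          refine Finset.sum_congr rfl fun c _ => ?_
          rw [Finset.sum_comm]
      _ = _ := by
          refine Finset.sum_congr rfl fun c _ => Finset.sum_congr rfl fun ρ _ => ?_
          simp only [Finset.sum_mul]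
  rw [e2 F, e2 (fun y => Fb y.2.2.1 y.2.2.2)]
  refine Finset.sum_congr rfl fun c _ => Finset.sum_congr rfl fun ρ _ => ?_
  congr 1
  rw [hFb]
  simp only [Finset.sum_const, Finset.card_univ, nsmul_eq_mul]
  ring

/-- **C6c**: upper bound for the total variation distance. -/
theorem tv_upper (hG : GW s q u W) (t : ℕ) (a b : ℝ) (x : St k r L R U) (good : (ℕ → Slot) → Prop)
    (hg2 : ∀ η w, good (rs 2 η w) ↔ good w) (hg3 : ∀ η w, good (rs 3 η w) ↔ good w)
    (hkill : ∀ w, good w → ∀ ψ : (Site k L × Lbl k r → U) →+ ZMod 2, ψ ≠ 0 →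
      Killed s q u x.2.1 x.2.2.1 x.2.2.2 ψ t w)
    (hfresh : ∀ w, good w → ∀ φ : (Site k L → ZMod 2) →+ ZMod 2, φ ≠ 0 → Fresh x.2.2.1 φ t w)
    (ha : Pr t (fun w => ¬ good w) ≤ a)
    (hb : ∀ F : Site k L → R → ℝ, (∀ c ρ, |F c ρ| ≤ 1) → ∀ c c' ρ ρ',
      |Ex t (fun w => F (c + (cur w t : Site k L)) (run (rstep s q) ρ w t)) -
        Ex t (fun w => F (c' + (cur w t : Site k L)) (run (rstep s q) ρ' w t))| ≤ b) :
    (1 / 2) * ∑ y : St k r L R U, |Pr t (fun w => run (step s q u) x w t = y) -
      1 / (Fintype.card (St k r L R U) : ℝ)| ≤ a + b / 2 := by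
  set N : ℝ := (Fintype.card (St k r L R U) : ℝ) with hN
  set M : ℝ := (Fintype.card (Site k L × Lbl k r → U) : ℝ) *
    (Fintype.card (Site k L → ZMod 2) : ℝ) with hM
  set K : ℝ := (Fintype.card (Site k L) : ℝ) * (Fintype.card R : ℝ) with hK
  have hMpos : 0 < M := by
    have h1 : 0 < Fintype.card (Site k L × Lbl k r → U) := Fintype.card_pos
    have h2 : 0 < Fintype.card (Site k L → ZMod 2) := Fintype.card_pos
    have h1' : (0 : ℝ) < (Fintype.card (Site k L × Lbl k r → U) : ℝ) := by exact_mod_cast h1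
    have h2' : (0 : ℝ) < (Fintype.card (Site k L → ZMod 2) : ℝ) := by exact_mod_cast h2
    exact mul_pos h1' h2'
  have hKpos : 0 < K := by
    have h1 : 0 < Fintype.card (Site k L) := Fintype.card_pos
    have h2 : 0 < Fintype.card R := Fintype.card_pos
    have h1' : (0 : ℝ) < (Fintype.card (Site k L) : ℝ) := by exact_mod_cast h1
    have h2' : (0 : ℝ) < (Fintype.card R : ℝ) := by exact_mod_cast h2
    exact mul_pos h1' h2'
  have hNMK : N = M * K := by
    rw [hN, hM, hK]
    simp only [Fintype.card_prod]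
    push_cast
    ring
  set F : St k r L R U → ℝ := fun y =>
    if 0 ≤ Pr t (fun w => run (step s q u) x w t = y) - 1 / N then 1 else -1 with hF
  have hFabs : ∀ y, |F y| ≤ 1 := by
    intro y
    simp only [hF]
    split_ifs <;> simp
  have hFmul : ∀ y, |Pr t (fun w => run (step s q u) x w t = y) - 1 / N| =
      F y * (Pr t (fun w => run (step s q u) x w t = y) - 1 / N) := by
    intro y
    simp only [hF]
    split_ifs with h
    · rw [abs_of_nonneg h, one_mul]
    · rw [abs_of_neg (lt_of_not_ge h)]; ring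
  -- the averaged function
  set Fb : Site k L → R → ℝ := fun c ρ =>
    (∑ h : Site k L × Lbl k r → U, ∑ p : Site k L → ZMod 2, F (h, p, c, ρ)) / M with hFbdef
  have hFb : ∀ c ρ, ∑ h : Site k L × Lbl k r → U, ∑ p : Site k L → ZMod 2, F (h, p, c, ρ) =
      M * Fb c ρ := by
    intro c ρ
    simp only [hFbdef]
    field_simp
  have hFbabs : ∀ c ρ, |Fb c ρ| ≤ 1 := by
    intro c ρ
    simp only [hFbdef]
    rw [abs_div, abs_of_pos hMpos, div_le_one hMpos]
    calc |∑ h : Site k L × Lbl k r → U, ∑ p : Site k L → ZMod 2, F (h, p, c, ρ)|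
        ≤ ∑ h : Site k L × Lbl k r → U, |∑ p : Site k L → ZMod 2, F (h, p, c, ρ)| :=
          Finset.abs_sum_le_sum_abs _ _
      _ ≤ ∑ h : Site k L × Lbl k r → U, ∑ p : Site k L → ZMod 2, |F (h, p, c, ρ)| :=
          Finset.sum_le_sum fun h _ => Finset.abs_sum_le_sum_abs _ _
      _ ≤ ∑ _h : Site k L × Lbl k r → U, ∑ _p : Site k L → ZMod 2, (1 : ℝ) :=
          Finset.sum_le_sum fun h _ => Finset.sum_le_sum fun p _ => hFabs _
      _ = M := by
          simp only [Finset.sum_const, Finset.card_univ, nsmul_eq_mul, mul_one, hM]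
  -- step 1: the sum equals `Ex F(X_t) - avg F`
  have s1 : ∑ y : St k r L R U, |Pr t (fun w => run (step s q u) x w t = y) - 1 / N| =
      Ex t (fun w => F (run (step s q u) x w t)) - (∑ y, F y) / N := by
    simp only [hFmul, mul_sub, Finset.sum_sub_distrib]
    congr 1
    · unfold Pr
      simp only [← Ex_mul_left]
      rw [← Ex_sum]
      congr 1
      funext w
      rw [Finset.sum_eq_single (run (step s q u) x w t)]
      · simp
      · intro v _ hv
        simp [Ne.symm hv]
      · simp
    · rw [Finset.sum_div]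
      refine Finset.sum_congr rfl fun y _ => ?_
      ring
  -- step 2: comparison with the averaged function
  have s2 : Ex t (fun w => F (run (step s q u) x w t)) ≤
      Ex t (fun w => Fb (x.2.2.1 + (cur w t : Site k L)) (run (rstep s q) x.2.2.2 w t)) + 2 * a := by
    have h1 := tvu_avg hG t x good hg2 hg3 hkill hfresh F Fb hFb
    have h2 : Ex t (fun w => F (run (step s q u) x w t)) ≤
        Ex t (fun w => F (run (step s q u) x w t) * (if good w then 1 else 0) +
          (Fb (x.2.2.1 + (cur w t : Site k L)) (run (rstep s q) x.2.2.2 w t) -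
            Fb (x.2.2.1 + (cur w t : Site k L)) (run (rstep s q) x.2.2.2 w t) *
              (if good w then 1 else 0) + 2 * (if ¬ good w then 1 else 0))) := by
      refine Ex_mono fun w => ?_
      by_cases hgw : good w
      · simp [hgw]
      · simp only [hgw, if_false, not_false_eq_true, if_true, mul_zero, mul_one, sub_zero, zero_add]
        have h3 := abs_le.1 (hFabs (run (step s q u) x w t))
        have h4 := abs_le.1 (hFbabs (x.2.2.1 + (cur w t : Site k L)) (run (rstep s q) x.2.2.2 w t))
        linarith [h3.2, h4.1]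
    have h3 : Ex t (fun w => F (run (step s q u) x w t) * (if good w then 1 else 0) +
          (Fb (x.2.2.1 + (cur w t : Site k L)) (run (rstep s q) x.2.2.2 w t) -
            Fb (x.2.2.1 + (cur w t : Site k L)) (run (rstep s q) x.2.2.2 w t) *
              (if good w then 1 else 0) + 2 * (if ¬ good w then 1 else 0))) =
        Ex t (fun w => Fb (x.2.2.1 + (cur w t : Site k L)) (run (rstep s q) x.2.2.2 w t)) +
          2 * Pr t (fun w => ¬ good w) := by
      rw [Ex_add, Ex_add, Ex_sub, h1, Ex_mul_left]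
      have h4 : Ex t (fun w => if ¬ good w then (1 : ℝ) else 0) = Pr t (fun w => ¬ good w) := by
        unfold Pr
        congr 1
        funext w
        by_cases h : good w <;> simp [h]
      rw [h4]
      ring
    rw [h3] at h2
    linarith
  -- step 3: averaging over the starting point
  have s3 : K * Ex t (fun w => Fb (x.2.2.1 + (cur w t : Site k L)) (run (rstep s q) x.2.2.2 w t)) ≤
      (∑ c : Site k L, ∑ ρ : R, Fb c ρ) + K * b := by
    have h1 : ∀ (c : Site k L) (ρ : R),
        Ex t (fun w => Fb (x.2.2.1 + (cur w t : Site k L)) (run (rstep s q) x.2.2.2 w t)) ≤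
        Ex t (fun w => Fb (c + (cur w t : Site k L)) (run (rstep s q) ρ w t)) + b := by
      intro c ρ
      have := (abs_le.1 (hb Fb hFbabs x.2.2.1 c x.2.2.2 ρ)).2
      linarith
    have h2 : ∑ c : Site k L, ∑ ρ : R,
        Ex t (fun w => Fb (x.2.2.1 + (cur w t : Site k L)) (run (rstep s q) x.2.2.2 w t)) ≤
        ∑ c : Site k L, ∑ ρ : R,
          (Ex t (fun w => Fb (c + (cur w t : Site k L)) (run (rstep s q) ρ w t)) + b) :=
      Finset.sum_le_sum fun c _ => Finset.sum_le_sum fun ρ _ => h1 c ρ
    have h3 : ∑ c : Site k L, ∑ ρ : R,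
        Ex t (fun w => Fb (c + (cur w t : Site k L)) (run (rstep s q) ρ w t)) =
        ∑ c : Site k L, ∑ ρ : R, Fb c ρ := by
      simp only [← Ex_sum]
      rw [← Ex_const (t := t) (∑ c : Site k L, ∑ ρ : R, Fb c ρ)]
      congr 1
      funext w
      rw [← Equiv.sum_comp (Equiv.addRight (cur w t : Site k L)) (fun c => ∑ ρ : R, Fb c ρ)]
      refine Finset.sum_congr rfl fun c _ => ?_
      rw [← Equiv.sum_comp (Equiv.mulRight (run (rstep s q) 1 w t))
        (fun ρ => Fb ((Equiv.addRight (cur w t : Site k L)) c) ρ)]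
      refine Finset.sum_congr rfl fun ρ _ => ?_
      rw [tvu_run_mul]
      rfl
    simp only [Finset.sum_add_distrib, Finset.sum_const, Finset.card_univ, nsmul_eq_mul] at h2
    rw [h3] at h2
    rw [hK]
    calc (Fintype.card (Site k L) : ℝ) * (Fintype.card R : ℝ) *
        Ex t (fun w => Fb (x.2.2.1 + (cur w t : Site k L)) (run (rstep s q) x.2.2.2 w t))
        = (Fintype.card (Site k L) : ℝ) * ((Fintype.card R : ℝ) *
        Ex t (fun w => Fb (x.2.2.1 + (cur w t : Site k L)) (run (rstep s q) x.2.2.2 w t))) := by ring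
      _ ≤ _ := h2
      _ = _ := by ring
  have s4 : M * (∑ c : Site k L, ∑ ρ : R, Fb c ρ) = ∑ y, F y := by
    rw [Finset.mul_sum]
    simp only [Finset.mul_sum, ← hFb]
    rw [Fintype.sum_prod_type]
    symm
    calc ∑ h : Site k L × Lbl k r → U, ∑ y : (Site k L → ZMod 2) × Site k L × R, F (h, y)
        = ∑ h : Site k L × Lbl k r → U, ∑ p : Site k L → ZMod 2, ∑ c : Site k L, ∑ ρ : R,
          F (h, p, c, ρ) := by
          refine Finset.sum_congr rfl fun h _ => ?_
          rw [Fintype.sum_prod_type]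
          refine Finset.sum_congr rfl fun p _ => ?_
          rw [Fintype.sum_prod_type]
      _ = ∑ h : Site k L × Lbl k r → U, ∑ c : Site k L, ∑ ρ : R, ∑ p : Site k L → ZMod 2,
          F (h, p, c, ρ) := by
          refine Finset.sum_congr rfl fun h _ => ?_
          rw [Finset.sum_comm]
          refine Finset.sum_congr rfl fun c _ => ?_
          rw [Finset.sum_comm]
      _ = ∑ c : Site k L, ∑ ρ : R, ∑ h : Site k L × Lbl k r → U, ∑ p : Site k L → ZMod 2,
          F (h, p, c, ρ) := by
          rw [Finset.sum_comm]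
          refine Finset.sum_congr rfl fun c _ => ?_
          rw [Finset.sum_comm]
  have s5 : Ex t (fun w => Fb (x.2.2.1 + (cur w t : Site k L)) (run (rstep s q) x.2.2.2 w t)) ≤
      (∑ y, F y) / N + b := by
    have h1 : K * Ex t (fun w => Fb (x.2.2.1 + (cur w t : Site k L))
        (run (rstep s q) x.2.2.2 w t)) ≤ K * ((∑ y, F y) / N + b) := by
      have h2 : K * ((∑ y, F y) / N + b) = (∑ c : Site k L, ∑ ρ : R, Fb c ρ) + K * b := by
        rw [← s4, hNMK]
        field_simp
      rw [h2]
      exact s3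
    exact le_of_mul_le_mul_left h1 hKpos
  rw [s1]
  linarith

end

end Pool.Agent.Helper55.PC
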